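import Mathlib

/-!
For every `n ≥ 14` the conjectured decomposition (bipartite graph plus a graph of maximum degree
below `n`) fails for some graph with exactly `C(2n+1,2) - C(n,2) - 1` edges, on every vertex number
`m ≥ 1 + n + ⌈n(n+3)/4⌉`.

The graph: a hub `0`, a set `A` of `n` vertices, a set `B` of `⌈n(n+3)/4⌉` vertices; the hub is joined
to all of `A ∪ B`, every vertex of `A` has `n + 3` neighbours in `B`, and every vertex of `B` has at
most four neighbours in `A`.
-/

namespace Pool.Agent.Helper95.EdgeThresholdFails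

open Finset

/-- `HasP n G`: the edges of `G` are the union of the edges of a bipartite graph `B` and of a graph
`D` all of whose degrees are at most `n - 1`, both on the vertex set of `G`. -/
def HasP (n : ℕ) {V : Type} (G : SimpleGraph V) : Prop :=
  ∃ B D : SimpleGraph V, B.Colorable 2 ∧ (∀ v : V, (D.neighborSet v).ncard ≤ n - 1) ∧ G = B ⊔ D

/-- The counting core: a colouring `c` of the natural numbers below `m` by two colours such that the
hub `0` has at most `n - 1` like-coloured vertices among `1, …, n + M`, cannot leave every vertex of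
`A` with at most `n - 1` like-coloured neighbours. -/
theorem count_core (n : ℕ) (hn : 4 ≤ n) (c : ℕ → Fin 2)
    (hub : #{x ∈ Finset.Icc 1 (n + (n * (n + 3) + 3) / 4) | c x = c 0} ≤ n - 1)
    (hA : ∀ a < n, #{j ∈ Finset.range (n + 3) | c (1 + n + (j * n + a) / 4) = c (1 + a)} ≤ n - 1) :
    False := by
  classical
  set M := (n * (n + 3) + 3) / 4 with hM
  set A1 := {a ∈ Finset.range n | c (1 + a) = c 0} with hA1
  set A2 := {a ∈ Finset.range n | ¬ c (1 + a) = c 0} with hA2
  set B1 := {b ∈ Finset.range M | c (1 + n + b) = c 0} with hB1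
  have hsum : #A1 + #A2 = n := by
    have := Finset.card_filter_add_card_filter_not (s := Finset.range n) (fun a => c (1 + a) = c 0)
    simpa using this
  have h1 : #A1 + #B1 ≤ n - 1 := by
    refine le_trans ?_ hub
    have e1 : #A1 = #(A1.image (fun a => 1 + a)) := by
      rw [Finset.card_image_of_injective]; intro a b h; simpa using h
    have e2 : #B1 = #(B1.image (fun b => 1 + n + b)) := by
      rw [Finset.card_image_of_injective]; intro a b h; simpa using h
    rw [e1, e2, ← Finset.card_union_of_disjoint]
    · apply Finset.card_le_card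
      intro x hx
      rw [Finset.mem_union] at hx
      rw [Finset.mem_filter, Finset.mem_Icc]
      rcases hx with hx | hx
      · rw [Finset.mem_image] at hx
        obtain ⟨a, ha, rfl⟩ := hx
        rw [hA1, Finset.mem_filter, Finset.mem_range] at ha
        exact ⟨⟨by omega, by omega⟩, ha.2⟩
      · rw [Finset.mem_image] at hx
        obtain ⟨b, hb, rfl⟩ := hx
        rw [hB1, Finset.mem_filter, Finset.mem_range] at hb
        exact ⟨⟨by omega, by omega⟩, hb.2⟩
    · rw [Finset.disjoint_left]
      intro x hx hx'
      rw [Finset.mem_image] at hx hx'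
      obtain ⟨a, ha, rfl⟩ := hx
      obtain ⟨b, hb, hab⟩ := hx'
      rw [hA1, Finset.mem_filter, Finset.mem_range] at ha
      omega
  -- the incidences
  set I := {i ∈ Finset.range (n * (n + 3)) | c (1 + i % n) ≠ c 0 ∧ c (1 + n + i / 4) = c 0} with hI
  have hup : #I ≤ 4 * #B1 := by
    apply Finset.card_le_mul_card_image_of_maps_to (f := fun i => i / 4)
    · intro i hi
      rw [hI, Finset.mem_filter, Finset.mem_range] at hi
      rw [hB1, Finset.mem_filter, Finset.mem_range]
      refine ⟨?_, hi.2.2⟩
      omega
    · intro b _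
      have : {a ∈ I | a / 4 = b} ⊆ Finset.Ico (4 * b) (4 * b + 4) := by
        intro x hx
        rw [Finset.mem_filter] at hx
        rw [Finset.mem_Ico]
        omega
      calc _ ≤ #(Finset.Ico (4 * b) (4 * b + 4)) := Finset.card_le_card this
        _ = 4 := by simp
  have hlow : 4 * #A2 ≤ #I := by
    apply Finset.mul_card_image_le_card_of_maps_to (f := fun i => i % n)
    · intro i hi
      rw [hI, Finset.mem_filter, Finset.mem_range] at hi
      rw [hA2, Finset.mem_filter, Finset.mem_range]
      exact ⟨Nat.mod_lt _ (by omega), hi.2.1⟩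
    · intro a ha
      rw [hA2, Finset.mem_filter, Finset.mem_range] at ha
      have h2 := hA a ha.1
      have h3 := Finset.card_filter_add_card_filter_not (s := Finset.range (n + 3))
        (fun j => c (1 + n + (j * n + a) / 4) = c (1 + a))
      rw [Finset.card_range] at h3
      have h4 : 4 ≤ #{j ∈ Finset.range (n + 3) | ¬ c (1 + n + (j * n + a) / 4) = c (1 + a)} := by
        omega
      refine le_trans h4 ?_
      apply Finset.card_le_card_of_injOn (fun j => j * n + a)
      · intro j hj
        rw [Finset.mem_coe, Finset.mem_filter, Finset.mem_range] at hj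
        rw [Finset.mem_coe, Finset.mem_filter, hI, Finset.mem_filter, Finset.mem_range]
        have hmod : (j * n + a) % n = a := by
          rw [Nat.mul_comm, Nat.mul_add_mod]; exact Nat.mod_eq_of_lt ha.1
        refine ⟨⟨?_, ?_, ?_⟩, hmod⟩
        · have : j * n + a < (j + 1) * n := by rw [Nat.add_mul]; omega
          refine lt_of_lt_of_le this ?_
          rw [Nat.mul_comm n]
          exact Nat.mul_le_mul_right n (by omega)
        · rw [hmod]; exact ha.2
        · have h5 := hj.2
          have h6 := ha.2
          generalize c (1 + n + (j * n + a) / 4) = p at *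
          generalize c (1 + a) = q at *
          generalize c 0 = r at *
          omega
      · intro j _ j' _ h
        have h' : j * n + a = j' * n + a := h
        have h7 : j * n = j' * n := by omega
        exact Nat.eq_of_mul_eq_mul_right (by omega) h7
  omega

/-- The base edges, as a finite set of unordered pairs of vertices in `Fin m`. -/
def baseEdges (n m : ℕ) (hm : 1 + n + (n * (n + 3) + 3) / 4 ≤ m) (hn : 0 < n) :
    Finset (Sym2 (Fin m)) := by
  classical
  exact (Finset.univ : Finset (Fin (n + (n * (n + 3) + 3) / 4))).image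
      (fun x => s(⟨0, by omega⟩, ⟨x.1 + 1, by have := x.2; omega⟩)) ∪
    (Finset.univ : Finset (Fin (n * (n + 3)))).image
      (fun i => s(⟨1 + i.1 % n, by have := Nat.mod_lt i.1 hn; omega⟩,
        ⟨1 + n + i.1 / 4, by have := i.2; omega⟩))

theorem baseEdges_card (n m : ℕ) (hm : 1 + n + (n * (n + 3) + 3) / 4 ≤ m) (hn : 0 < n) :
    #(baseEdges n m hm hn) ≤ (n + (n * (n + 3) + 3) / 4) + n * (n + 3) := by
  classical
  unfold baseEdges
  refine le_trans (Finset.card_union_le _ _) ?_
  refine Nat.add_le_add ?_ ?_
  · refine le_trans Finset.card_image_le ?_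
    simp
  · refine le_trans Finset.card_image_le ?_
    simp

theorem baseEdges_not_diag (n m : ℕ) (hm : 1 + n + (n * (n + 3) + 3) / 4 ≤ m) (hn : 0 < n) :
    ∀ e ∈ baseEdges n m hm hn, ¬ e.IsDiag := by
  classical
  intro e he
  unfold baseEdges at he
  rw [Finset.mem_union, Finset.mem_image, Finset.mem_image] at he
  rcases he with ⟨x, _, rfl⟩ | ⟨i, _, rfl⟩
  · rw [Sym2.mk_isDiag_iff]
    intro h
    have := congrArg Fin.val h
    simp at this
  · rw [Sym2.mk_isDiag_iff]
    intro h
    have := congrArg Fin.val h
    simp only at this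
    have h2 := Nat.mod_lt i.1 hn
    omega

/-- A graph containing the base edges does not have the property. -/
theorem not_hasP (n m : ℕ) (hm : 1 + n + (n * (n + 3) + 3) / 4 ≤ m) (hn : 4 ≤ n)
    (G : SimpleGraph (Fin m)) (hG : ∀ e ∈ baseEdges n m hm (by omega), e ∈ G.edgeSet) :
    ¬ HasP n G := by
  classical
  rintro ⟨B, D, hB, hD, hBD⟩
  obtain ⟨col⟩ := hB
  have hmpos : 0 < m := by omega
  -- extend the colouring to all naturals
  set c : ℕ → Fin 2 := fun x => if h : x < m then col ⟨x, h⟩ else 0 with hc
  have hcx : ∀ (x : ℕ) (h : x < m), c x = col ⟨x, h⟩ := by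
    intro x h; simp [hc, h]
  -- an edge of `G` with equal colours is an edge of `D`
  have hDadj : ∀ u v : Fin m, G.Adj u v → col u = col v → D.Adj u v := by
    intro u v huv hcol
    rw [hBD, SimpleGraph.sup_adj] at huv
    rcases huv with h | h
    · exact absurd hcol (col.valid h)
    · exact h
  have hDfin : ∀ v, (D.neighborSet v).Finite := fun v => Set.toFinite _
  have hubadj : ∀ x : ℕ, 1 ≤ x → x ≤ n + (n * (n + 3) + 3) / 4 → ∀ h : x < m,
      G.Adj ⟨0, hmpos⟩ ⟨x, h⟩ := by
    intro x h1 h2 h
    have : s((⟨0, hmpos⟩ : Fin m), ⟨x, h⟩) ∈ baseEdges n m hm (by omega) := by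
      unfold baseEdges
      rw [Finset.mem_union, Finset.mem_image]
      left
      refine ⟨⟨x - 1, by omega⟩, Finset.mem_univ _, ?_⟩
      have hx : x - 1 + 1 = x := by omega
      simp only [hx]
    exact hG _ this
  have abadj : ∀ i : ℕ, i < n * (n + 3) → ∀ (h : 1 + i % n < m) (h' : 1 + n + i / 4 < m),
      G.Adj ⟨1 + i % n, h⟩ ⟨1 + n + i / 4, h'⟩ := by
    intro i hi h h'
    have : s((⟨1 + i % n, h⟩ : Fin m), ⟨1 + n + i / 4, h'⟩) ∈ baseEdges n m hm (by omega) := by
      unfold baseEdges
      rw [Finset.mem_union, Finset.mem_image, Finset.mem_image]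
      right
      exact ⟨⟨i, hi⟩, Finset.mem_univ _, rfl⟩
    exact hG _ this
  apply count_core n hn c
  · -- the hub
    refine le_trans ?_ (hD ⟨0, hmpos⟩)
    rw [← Set.ncard_coe_finset]
    apply Set.ncard_le_ncard_of_injOn (fun x : ℕ => if h : x < m then (⟨x, h⟩ : Fin m) else ⟨0, hmpos⟩)
    · intro x hx
      rw [Finset.mem_coe, Finset.mem_filter, Finset.mem_Icc] at hx
      have hxm : x < m := by omega
      simp only [hxm, dif_pos]
      rw [SimpleGraph.mem_neighborSet]
      apply hDadj
      · exact hubadj x hx.1.1 hx.1.2 hxm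
      · rw [← hcx 0 hmpos, ← hcx x hxm]; exact hx.2.symm
    · intro x hx y hy hxy
      rw [Finset.mem_coe, Finset.mem_filter, Finset.mem_Icc] at hx hy
      have hxm : x < m := by omega
      have hym : y < m := by omega
      simp only [hxm, hym, dif_pos] at hxy
      exact congrArg Fin.val hxy
  · -- a vertex of `A`
    intro a ha
    have ham : 1 + a < m := by omega
    refine le_trans ?_ (hD ⟨1 + a, ham⟩)
    rw [← Set.ncard_coe_finset]
    have key : ∀ j < n + 3, (j * n + a) % n = a ∧ j * n + a < n * (n + 3) := by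
      intro j hj
      constructor
      · rw [Nat.mul_comm, Nat.mul_add_mod]; exact Nat.mod_eq_of_lt ha
      · have : j * n + a < (j + 1) * n := by rw [Nat.add_mul]; omega
        refine lt_of_lt_of_le this ?_
        rw [Nat.mul_comm n]
        exact Nat.mul_le_mul_right n (by omega)
    apply Set.ncard_le_ncard_of_injOn
      (fun j : ℕ => if h : 1 + n + (j * n + a) / 4 < m then (⟨1 + n + (j * n + a) / 4, h⟩ : Fin m)
        else ⟨0, hmpos⟩)
    · intro j hj
      rw [Finset.mem_coe, Finset.mem_filter, Finset.mem_range] at hj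
      obtain ⟨k1, k2⟩ := key j hj.1
      have hxm : 1 + n + (j * n + a) / 4 < m := by omega
      simp only [hxm, dif_pos]
      rw [SimpleGraph.mem_neighborSet]
      apply hDadj
      · have := abadj (j * n + a) k2 (by rw [k1]; exact ham) hxm
        simpa only [k1] using this
      · rw [← hcx _ ham, ← hcx _ hxm]; exact hj.2.symm
    · intro j hj j' hj' hjj
      rw [Finset.mem_coe, Finset.mem_filter, Finset.mem_range] at hj hj'
      obtain ⟨k1, k2⟩ := key j hj.1
      obtain ⟨k1', k2'⟩ := key j' hj'.1
      have hxm : 1 + n + (j * n + a) / 4 < m := by omega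
      have hym : 1 + n + (j' * n + a) / 4 < m := by omega
      simp only [hxm, hym, dif_pos] at hjj
      have h1 := congrArg Fin.val hjj
      simp only at h1
      -- the indices differ by a multiple of `n ≥ 4`
      by_contra hne
      rcases Nat.lt_or_gt_of_ne hne with hlt | hlt
      · have h2 : (j + 1) * n ≤ j' * n := Nat.mul_le_mul_right n hlt
        rw [Nat.add_mul] at h2
        omega
      · have h2 : (j' + 1) * n ≤ j * n := Nat.mul_le_mul_right n hlt
        rw [Nat.add_mul] at h2
        omega

/-- For every `n ≥ 14` and every `m ≥ 1 + n + ⌈n(n+3)/4⌉` (in particular `m ≥ 2n + 2`) there is a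
graph with `m` vertices and exactly `C(2n+1,2) - C(n,2) - 1` edges which is not the union of a
bipartite graph and a graph of maximum degree at most `n - 1`. -/
theorem result : ∀ n : ℕ, 14 ≤ n → ∀ m : ℕ, 1 + n + (n * (n + 3) + 3) / 4 ≤ m →
    2 * n + 2 ≤ m ∧ ∃ G : SimpleGraph (Fin m),
      G.edgeSet.ncard = (2 * n + 1).choose 2 - n.choose 2 - 1 ∧ ¬ HasP n G := by
  classical
  intro n hn m hm
  have hn2 : 14 * n ≤ n * n := Nat.mul_le_mul_right n hn
  have hexp : n * (n + 3) = n * n + 3 * n := by ring
  have hm2 : 2 * n + 2 ≤ m := by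
    refine le_trans ?_ hm
    omega
  refine ⟨hm2, ?_⟩
  set E := (2 * n + 1).choose 2 - n.choose 2 - 1 with hE
  have hc1 : (2 * n + 1).choose 2 = n * (2 * n + 1) := by
    rw [Nat.choose_two_right]
    have : (2 * n + 1) * (2 * n + 1 - 1) = 2 * (n * (2 * n + 1)) := by
      rw [Nat.add_sub_cancel]; ring
    rw [this]
    exact Nat.mul_div_cancel_left _ (by norm_num)
  have hc2 : 2 * n.choose 2 = n * (n - 1) := by
    rw [Nat.choose_two_right]
    exact Nat.mul_div_cancel' (Nat.even_mul_pred_self n).two_dvd
  have hc3 : n * (n - 1) + n = n * n := by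
    obtain ⟨k, rfl⟩ : ∃ k, n = k + 1 := ⟨n - 1, by omega⟩
    rw [Nat.add_sub_cancel]; ring
  have hc4 : n * (2 * n + 1) = 2 * (n * n) + n := by ring
  -- `2 E = 3 n² + 3 n - 2`
  have hEval : 2 * E + 2 = 3 * (n * n) + 3 * n := by
    rw [hE, hc1]
    omega
  have hlow : (n + (n * (n + 3) + 3) / 4) + n * (n + 3) ≤ E := by
    have hkey : 13 * n + 7 ≤ n * n := by omega
    omega
  have hbase := baseEdges_card n m hm (by omega)
  -- all possible edges
  set T : Finset (Sym2 (Fin m)) := (⊤ : SimpleGraph (Fin m)).edgeFinset with hT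
  have hTcard : #T = m.choose 2 := by
    rw [hT, SimpleGraph.card_edgeFinset_top_eq_card_choose_two, Fintype.card_fin]
  have hET : E ≤ #T := by
    rw [hTcard]
    refine le_trans ?_ (Nat.choose_le_choose 2 (show 2 * n + 1 ≤ m by omega))
    omega
  have hsub : baseEdges n m hm (by omega) ⊆ T := by
    intro e he
    rw [hT, SimpleGraph.mem_edgeFinset, SimpleGraph.edgeSet_top]
    exact baseEdges_not_diag n m hm (by omega) e he
  obtain ⟨S, hS1, hS2, hS3⟩ := Finset.exists_subsuperset_card_eq hsub (le_trans hbase hlow) hET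
  refine ⟨SimpleGraph.fromEdgeSet (S : Set (Sym2 (Fin m))), ?_, ?_⟩
  · rw [SimpleGraph.edgeSet_fromEdgeSet]
    have : (S : Set (Sym2 (Fin m))) \ Sym2.diagSet = (S : Set (Sym2 (Fin m))) := by
      apply sdiff_eq_left.mpr
      rw [Set.disjoint_left]
      intro e he
      have := hS2 he
      rw [hT, SimpleGraph.mem_edgeFinset, SimpleGraph.edgeSet_top] at this
      exact this
    rw [this, Set.ncard_coe_finset, hS3]
  · apply not_hasP n m hm (by omega)
    intro e he
    rw [SimpleGraph.edgeSet_fromEdgeSet]
    exact ⟨hS1 he, baseEdges_not_diag n m hm (by omega) e he⟩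

end Pool.Agent.Helper95.EdgeThresholdFails
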